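import Pool.Agent.H46.Bog.C

set_option autoImplicit false

open IntermediateField Pool.Agent.H46.Bog

/-- Counterexample with `K = ℚ` and `𝒢 = 𝔾ₘ`: `F₀` has the Bogomolov property, `F / F₀` is finite,
`F / ℚ` is Galois, `F` has only finitely many roots of unity outside `F₀`, and `F` does not have the
Bogomolov property. -/
theorem Pool.Agent.Results.MP_d03a5a_nt.Disproof.result (Qb : Type) [Field Qb] [CharZero Qb]
    [IsAlgClosure ℚ Qb] : ∃ (F₀ F : IntermediateField ℚ Qb) (h : F₀ ≤ F), Bogomolov F₀ ∧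
      FiniteDimensional F₀ (extendScalars h) ∧ IsGalois ℚ F ∧
      {x : Qb | IsOfFinOrder x ∧ x ∈ F ∧ x ∉ F₀}.Finite ∧ ¬Bogomolov F := by
  have := IsAlgClosure.isAlgClosed ℚ (K := Qb)
  let ι : Qb →ₐ[ℚ] ℂ := IsAlgClosed.lift
  let := ι.toAlgebra
  let τ := (starRingEnd ℂ).toRatAlgHom.restrictNormal' Qb
  have t1 : ∀ x, ι (τ x) = starRingEnd ℂ (ι x) := (starRingEnd ℂ).toRatAlgHom.restrictNormal_commutes Qb
  have t2 : ∀ x, τ (τ x) = x := fun x => ι.injective (by simp [t1])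
  have t3 : ∀ m x, Rt m x → τ x = x⁻¹ := fun m x h => ι.injective (by
    simpa [t1] using (Complex.inv_eq_conj (circle (h.map ι))).symm)
  have t4 : ∀ x ∈ FF Qb, ∀ σ : Qb →+* ℂ, σ (τ x) = starRingEnd ℂ (σ x) := fun x hx σ =>
    eq_on (σ.comp τ.toRingHom) ((starRingEnd ℂ).comp σ) (S := {x | ∃ m, Rt m x}) (fun y ⟨m, h⟩ => by
      simp [t3 m y h, Complex.inv_eq_conj (circle (h.map σ))]) hx
  have nm : ∀ σ : Qb ≃ₐ[ℚ] Qb, (FF Qb).map σ ≤ FF Qb := fun σ => by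
    rw [FF, adjoin_map]
    exact adjoin.mono _ _ _ (by rintro _ ⟨x, ⟨m, h⟩, rfl⟩; exact ⟨m, h.map _⟩)
  have t5 : ∀ x ∈ FF Qb, τ x ∈ FF Qb := fun x h => nm τ ⟨x, h, rfl⟩
  let F₀ := FF Qb ⊓ fixedField (Subgroup.zpowers τ)
  have m0 : ∀ x, x ∈ F₀ ↔ x ∈ FF Qb ∧ τ x = x := fun x => by
    simp only [F₀, mem_inf, mem_fixedField_iff, and_congr_right_iff]
    exact fun _ => ⟨fun h => h τ (Subgroup.mem_zpowers τ), fun h g hg =>
      (Subgroup.zpowers_le (H := MulAction.stabilizer _ x)).mpr h hg⟩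
  have : Normal ℚ (FF Qb) := normal_iff_forall_map_le'.mpr nm
  refine ⟨F₀, FF Qb, inf_le_left, bog fun x hx σ => ?_, ?_, ⟨⟩, ?_, not_bog⟩
  · rw [m0] at hx
    rw [← Complex.conj_eq_iff_im, ← t4 x hx.1, hx.2]
  · obtain ⟨α, hα⟩ := IsAlgClosed.exists_root (P Qb 0) fun c => by
      simpa [Polynomial.eq_C_of_degree_eq_zero c ▸ Polynomial.coeff_C_succ] using P1 (R := Qb) 0
    replace hα : Rt 0 α := by simpa [P, Rt] using hα
    have aF : α ∈ FF Qb := subset_adjoin ℚ _ ⟨0, hα⟩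
    have d0 : α - τ α ≠ 0 := by
      rw [t3 0 α hα, sub_ne_zero, Ne, ← mul_eq_one_iff_eq_inv₀ hα.ne, mul_self_eq_one_iff]
      rintro (rfl | rfl) <;> norm_num [Rt] at hα
    have := Algebra.IsAlgebraic.tower_top (K := ℚ) F₀ (A := Qb)
    have := adjoin.finiteDimensional (Algebra.IsIntegral.isIntegral (R := F₀) (α - τ α))
    suffices h : extendScalars inf_le_left ≤ F₀⟮α - τ α⟯ from
      .of_injective (inclusion h).toLinearMap (inclusion_injective h)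
    intro x (hx : x ∈ FF Qb)
    have a : (x + τ x) / 2 ∈ F₀ := (m0 _).mpr ⟨div_mem (add_mem hx (t5 x hx)) (ofNat_mem _ 2), by
      simp [t2, add_comm, map_ofNat]⟩
    have b : (x - τ x) / 2 / (α - τ α) ∈ F₀ := (m0 _).mpr ⟨div_mem (div_mem (sub_mem hx (t5 x hx))
      (ofNat_mem _ 2)) (sub_mem aF (t5 α aF)), by
        simp only [map_div₀, map_sub, t2, map_ofNat]
        rw [← neg_sub x, ← neg_sub α, neg_div, neg_div_neg_eq]⟩
    convert add_mem (F₀⟮α - τ α⟯.algebraMap_mem ⟨_, a⟩) (mul_mem (F₀⟮α - τ α⟯.algebraMap_mem ⟨_, b⟩)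
      (mem_adjoin_simple_self F₀ _)) using 1
    change x = (x + τ x) / 2 + (x - τ x) / 2 / (α - τ α) * (α - τ α)
    rw [div_mul_cancel₀ _ d0]; ring
  exact (Polynomial.nthRootsFinset 24 (1 : Qb)).finite_toSet.subset fun x h =>
    (Polynomial.mem_nthRootsFinset (by decide) 1).mpr (tors h.2.1 h.1)
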